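import Mathlib
import Pool.Agent.Lib.MP_db9276_co.Main

/-!
# The pair (Prod, Exp) has the Ramsey property

Literal form: finite colourings of the positive integers `ℕ+`, and the Ramsey property of a pair of
functions as in the problem file.  The sequence can be chosen among the powers of two.
-/

set_option autoImplicit false

namespace Pool.Agent.Results.MP_db9276_co.ProdExp

/-- The product of two positive integers, `Prod(n, m) = n m`. -/
def Prod (n m : ℕ+) : ℕ+ := n * m

/-- The exponential, `Exp(n, m) = m ^ n`. -/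
def Exp (n m : ℕ+) : ℕ+ := m ^ (n : ℕ)

/-- The sequence `a` (indexed by `0, 1, 2, …`) is a witness of the Ramsey property of `(f, g)` for
the colouring `c`: it is strictly increasing, and all `f (a n) (a m)` and `g (a n) (a m)` with
`n < m` lie in one and the same cell. -/
def IsWitness {r : ℕ} (f g : ℕ+ → ℕ+ → ℕ+) (c : ℕ+ → Fin r) (a : ℕ → ℕ+) : Prop :=
  StrictMono a ∧ ∃ i : Fin r, ∀ n m : ℕ, n < m → c (f (a n) (a m)) = i ∧ c (g (a n) (a m)) = i

/-- The pair `(f, g)` has the Ramsey property. -/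
def RamseyProperty (f g : ℕ+ → ℕ+ → ℕ+) : Prop :=
  ∀ (r : ℕ) (c : ℕ+ → Fin r), ∃ a : ℕ → ℕ+, IsWitness f g c a

/-- The pair `(Prod, Exp)` has the Ramsey property; moreover for every finite colouring of the
positive integers the sequence can be chosen to consist of powers of two. -/
theorem result :
    RamseyProperty Prod Exp ∧
      ∀ (r : ℕ) (c : ℕ+ → Fin r), ∃ a : ℕ → ℕ+, IsWitness Prod Exp c a ∧
        ∀ n, ∃ b : ℕ, a n = 2 ^ b := by
  have key : ∀ (r : ℕ) (c : ℕ+ → Fin r), ∃ a : ℕ → ℕ+, IsWitness Prod Exp c a ∧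
      ∀ n, ∃ b : ℕ, a n = 2 ^ b := by
    intro r c
    obtain ⟨b, j, hb, hj⟩ := Pool.Agent.MPdb9276.exists_seq fun x => c (2 ^ x)
    obtain ⟨i, hi⟩ := Finite.exists_infinite_fiber j
    have hinf : (j ⁻¹' {i}).Infinite := Set.infinite_coe_iff.1 hi
    obtain ⟨φ, hφ, hφi⟩ := Nat.exists_strictMono_subsequence (P := fun n => j n = i)
      (fun N => by
        obtain ⟨n, hn, hn2⟩ := hinf.exists_gt N
        exact ⟨n, hn2, hn⟩)
    refine ⟨fun n => 2 ^ b (φ n), ⟨?_, i, ?_⟩, fun n => ⟨_, rfl⟩⟩
    · intro n m hnm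
      have h := Nat.pow_lt_pow_right (by norm_num : 1 < 2) (hb _ _ (hφ hnm))
      rw [← PNat.coe_lt_coe]
      simpa using h
    · intro n m hnm
      obtain ⟨h1, h2⟩ := hj _ _ (hφ hnm)
      rw [hφi] at h1 h2
      refine ⟨?_, ?_⟩
      · rw [← h1]
        unfold Prod
        rw [← pow_add]
      · rw [← h2]
        unfold Exp
        rw [← pow_mul, mul_comm]
        simp
  exact ⟨fun r c => (key r c).imp fun a ha => ha.1, key⟩

end Pool.Agent.Results.MP_db9276_co.ProdExp
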